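import Mathlib
import Pool.Agent.N990.RU.Stm

/-!
# RU/CNS: consistency of the conditional expectations, edge dependent couplings

Adapted from the file of helper769 for one coupling.
-/

open MeasureTheory
open Pool.Agent.N988.EA

namespace Pool.Agent.N360.RU

open Pool.Agent.N990.RU

/-- The ends of `H n` after the replacement inside `H (n + 1)`. -/
theorem ends_repl (h2 : S_GEO) (p : ℕ → Fin 2 × Bool) (n : ℕ) (ω : VInf p → Ang)
    (σ : Vert 2 (n + 1) → Ang) :
    ends p n (repl p (n + 1) ω σ) = fun t =>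
      (Sum.elim (ends p (n + 1) ω) σ : Pt 2 (n + 1) → Ang) (emb (p n).1 (p n).2 (.inl t)) := by
  obtain ⟨-, hemb, hinj, -, hrepl, -⟩ := h2 p
  funext t
  show repl p (n + 1) ω σ (inc p n (.inl t)) = _
  rw [← hemb n (.inl t)]
  rcases hx : (emb (p n).1 (p n).2 (.inl t) : Pt 2 (n + 1)) with s | x
  · rw [(hrepl (n + 1) ω σ).2 _ (fun x hx' => by
      have := hinj (n + 1) hx'
      exact absurd this (by simp))]
    rfl
  · rw [(hrepl (n + 1) ω σ).1 x]
    rfl

theorem inner (h2 : S_GEO) (p : ℕ → Fin 2 × Bool) (J : EdgeInf 2 p → ℝ × Ang) (n : ℕ)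
    (f : (VInf p → Ang) → ℝ) (ω : VInf p → Ang) (σ : Vert 2 (n + 1) → Ang) :
    GG p J n f (repl p (n + 1) ω σ) = ∫ σ', f (repl p (n + 1) ω (upd n (p n) σ σ'))
      ∂(gib n (fun e => rs p J (n + 1) ((p n).1, (p n).2, e)) fun t =>
        (Sum.elim (ends p (n + 1) ω) σ : Pt 2 (n + 1) → Ang) (emb (p n).1 (p n).2 (.inl t))) := by
  obtain ⟨-, -, -, -, -, hrr, -, -, hrs, -⟩ := h2 p
  have hJ : (fun e => rs p J (n + 1) ((p n).1, (p n).2, e)) = rs p J n := by
    funext e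
    exact hrs J n e
  unfold GG
  rw [ends_repl h2 p n ω σ, hJ]
  simp only [hrr]

theorem t_cns (_ : Pool.Agent.N990.RU.S_BAS) (h2 : Pool.Agent.N990.RU.S_GEO)
    (h3 : Pool.Agent.N990.RU.S_FIN) : Pool.Agent.N990.RU.S_CNS := by
  intro p J n f hf hC ω
  obtain ⟨C, hC⟩ := hC
  have hmeas : Measurable fun z : (VInf p → Ang) × (Vert 2 (n + 1) → Ang) =>
      repl p (n + 1) z.1 z.2 := (h2 p).2.2.2.2.2.2.2.1 (n + 1)
  have hG : Measurable fun σ : Vert 2 (n + 1) → Ang => f (repl p (n + 1) ω σ) :=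
    hf.comp (hmeas.comp (measurable_const.prodMk measurable_id))
  have key := h3 n (rs p J (n + 1)) (p n) (ends p (n + 1) ω)
    (fun σ => f (repl p (n + 1) ω σ)) hG ⟨C, fun σ => hC _⟩
  have e1 : GG p J (n + 1) (GG p J n f) ω =
      ∫ σ, (∫ σ', f (repl p (n + 1) ω (upd n (p n) σ σ'))
      ∂(gib n (fun e => rs p J (n + 1) ((p n).1, (p n).2, e)) fun t =>
        (Sum.elim (ends p (n + 1) ω) σ : Pt 2 (n + 1) → Ang)
        (emb (p n).1 (p n).2 (.inl t)))) ∂(gib (n + 1) (rs p J (n + 1)) (ends p (n + 1) ω)) := by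
    unfold GG
    refine integral_congr_ae (Filter.Eventually.of_forall fun σ => ?_)
    exact inner h2 p J n f ω σ
  exact e1.trans key.symm

end Pool.Agent.N360.RU
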